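import Pool.Agent.H59.L.S8.W558.S2.CI2
import Pool.Agent.H59.L.S8.W558.Var

set_option autoImplicit false
set_option linter.unusedVariables false
set_option linter.unusedSimpArgs false
set_option linter.unusedSectionVars false

universe u

open AlgebraicGeometry CategoryTheory Pool.Agent.H920R2 MvPolynomial

namespace Pool.Agent.W558

/-- The polynomial ring is generated by the constants and the coordinates. -/
lemma mv_mem {k B L : Type u} [Field k] [CommRing B] [Algebra k B] [Field L] [Algebra k L] {n : ℕ}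
    (ψ : MvPolynomial (Fin n) B →ₐ[k] L) (Q : Subalgebra k L) (hC : ∀ b, ψ (C b) ∈ Q)
    (hX : ∀ s, ψ (X s) ∈ Q) (a : MvPolynomial (Fin n) B) : ψ a ∈ Q := by
  induction a using MvPolynomial.induction_on with
  | C b => exact hC b
  | add a b ha hb => rw [map_add]; exact Q.add_mem ha hb
  | mul_X a s ha => rw [map_mul]; exact Q.mul_mem ha (hX s)

section base

variable {k B L : Type u} [Field k] [CommRing B] [IsDomain B] [Algebra k B] [Field L]
  [Algebra k L] {n : ℕ} [Algebra (FractionRing B) L] [IsScalarTower k (FractionRing B) L]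
  (ψ : MvPolynomial (Fin n) B →ₐ[k] L)
  (hE : ∀ b : B, algebraMap (FractionRing B) L (algebraMap B (FractionRing B) b) = ψ (C b))

include hE

lemma algInd_of_inj (hψ : ∀ a, ψ a = 0 → a = 0) :
    AlgebraicIndependent (FractionRing B) (fun s => ψ (X s)) := by
  let aB : Algebra B L := ((algebraMap (FractionRing B) L).comp
    (algebraMap B (FractionRing B))).toAlgebra
  have tB : IsScalarTower B (FractionRing B) L := IsScalarTower.of_algebraMap_eq fun b => rfl
  have h1 : AlgebraicIndependent B (fun s => ψ (X s)) := by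
    rw [algebraicIndependent_iff]
    intro P hP
    apply hψ
    rw [← hP]
    have : ∀ P, ψ P = aeval (fun s => ψ (X s)) P := by
      intro P
      induction P using MvPolynomial.induction_on with
      | C b => rw [aeval_C]; exact (hE b).symm
      | add a b ha hb => rw [map_add, map_add, ha, hb]
      | mul_X a s ha => rw [map_mul, map_mul, ha, aeval_X]
    exact this P
  have h2 : Algebra.IsAlgebraic B (FractionRing B) :=
    (IsFractionRing.comap_isAlgebraic_iff (A := B) (K := FractionRing B)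
      (C := FractionRing B)).2 inferInstance
  exact h1.extendScalars (FractionRing B)

end base

namespace CIData

variable {k B : Type u} [Field k] [CommRing B] [Algebra k B] {p : ℕ} {n r : ℕ}
  {S : CIData B p n r} [Fact p.Prime] [CharP k p]

/-- The base step. -/
theorem inv_zero [IsDomain B] (hS : S.Ok) (hbase : S2_base.{u}) (hmono : S2_mono.{u})
    {T I : Type} [Finite T] [Fintype I] (M : LM (⊥ : Subalgebra k (FractionRing B)) ⊤ T I)
    (Γ : S.H → I → ℤ) (hF : Fn M (fun t => algebraMap B (FractionRing B) (S.h t)) Γ)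
    (hfr : ∀ t (x : FractionRing B), ∃ a ∈ M.A t, ∃ b ∈ M.A t, b ≠ 0 ∧ x = a * b⁻¹) :
    Inv k S 0 := by
  classical
  intro L _ _ ψ hL hker hDn
  have hψ : ∀ a, ψ a = 0 → a = 0 := by
    intro a ha
    have h1 : Ideal.span (S.f '' {l | l.val < 0 ∧ l ∈ S.J}) = ⊥ := by
      have h2 : {l : Fin r | l.val < 0 ∧ l ∈ S.J} = ∅ := by
        ext l
        simp
      rw [h2, Set.image_empty, Ideal.span_empty]
    rw [h1] at hker
    have h3 := hker.2 (y := ⊥) ⟨Ideal.isPrime_bot, le_rfl⟩ bot_le
    exact (Ideal.mem_bot).1 (h3 (RingHom.mem_ker.2 ha))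
  have hinj : Function.Injective (ψ.toRingHom.comp (C : B →+* MvPolynomial (Fin n) B)) := by
    rw [injective_iff_map_eq_zero]
    intro b hb
    exact C_injective _ _ ((hψ _ hb).trans (map_zero C).symm)
  let aE : Algebra (FractionRing B) L := (IsFractionRing.lift (K := FractionRing B) hinj).toAlgebra
  have hE : ∀ b : B, algebraMap (FractionRing B) L (algebraMap B (FractionRing B) b) =
      ψ (C b) := fun b => IsFractionRing.lift_algebraMap hinj b
  have tE : IsScalarTower k (FractionRing B) L := by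
    refine IsScalarTower.of_algebraMap_eq fun c => ?_
    rw [IsScalarTower.algebraMap_apply k B (FractionRing B), hE]
    have : (C (algebraMap k B c) : MvPolynomial (Fin n) B) =
      algebraMap k (MvPolynomial (Fin n) B) c := rfl
    rw [this, AlgHom.commutes]
  have hz := algInd_of_inj ψ hE hψ
  have hbb : ∀ x : FractionRing B, ∃ a b : B, b ≠ 0 ∧ ψ (C b) ≠ 0 ∧
      algebraMap (FractionRing B) L x * ψ (C b) = ψ (C a) := by
    intro x
    obtain ⟨a, b, hb, rfl⟩ := IsFractionRing.div_surjective (A := B) x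
    have hb0 : ψ (C b) ≠ 0 := hDn _ (Submonoid.subset_closure
      (Or.inl (Or.inl ⟨b, nonZeroDivisors.ne_zero hb, rfl⟩)))
    refine ⟨a, b, nonZeroDivisors.ne_zero hb, hb0, ?_⟩
    rw [map_div₀, hE, hE, div_mul_cancel₀ _ hb0]
  have h1 := hbase k (FractionRing B) L T I S.H M _ Γ hF hfr n (fun s => ψ (X s)) hz
  refine ⟨?_, fun b _ a ha => by rw [hψ a ha, map_zero, map_zero]⟩
  have h2 := hmono k L (S.H ⊕ Fin n) (S.H ⊕ (Fin n ⊕ Fin r)) _ _ (QS ψ (Dn S 0)) _ (DsL S ψ 0)
    h1 (fun x y => Sum.elim (fun t => if y = Sum.inl t then (1 : ℤ) else 0)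
      (Sum.elim (fun s => if y = Sum.inr s then 1 else 0) (fun _ => 0)) x) ?_ ?_
  · convert h2 using 1
    funext x
    rcases x with t | s | l
    · rw [Finset.prod_eq_single (Sum.inl t)]
      · simp only [Sum.elim_inl, if_true, zpow_one]
        exact (hE _).symm
      · intro y _ hy
        simp only [Sum.elim_inl, if_neg hy, zpow_zero]
      · intro h; exact absurd (Finset.mem_univ _) h
    · rw [Finset.prod_eq_single (Sum.inr s)]
      · simp only [Sum.elim_inr, Sum.elim_inl, if_true, zpow_one]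
        rfl
      · intro y _ hy
        simp only [Sum.elim_inr, Sum.elim_inl, if_neg hy, zpow_zero]
      · intro h; exact absurd (Finset.mem_univ _) h
    · simp only [Sum.elim_inr, zpow_zero, Finset.prod_const_one]
      have h3 : ¬ (l.val < 0 ∧ l ∉ S.J) := fun h => absurd h.1 (Nat.not_lt_zero _)
      change (if l.val < 0 ∧ l ∉ S.J then ψ (S.f l) else 1) = 1
      rw [if_neg h3]
  · -- the algebras
    apply le_antisymm
    · refine Algebra.adjoin_le ?_
      rintro x ((⟨e, rfl⟩ | ⟨s, rfl⟩) | ⟨s, rfl⟩)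
      · obtain ⟨a, b, hb, hb0, h3⟩ := hbb e
        exact ⟨C a, C b, Submonoid.subset_closure (Or.inl (Or.inl ⟨b, hb, rfl⟩)), hb0, h3⟩
      · exact map_mem_QS _
      · exact inv_mem_QS (Submonoid.subset_closure (Or.inl (Or.inr ⟨s, rfl⟩)))
          (hDn _ (Submonoid.subset_closure (Or.inl (Or.inr ⟨s, rfl⟩))))
    · have hE' : ∀ e : FractionRing B, algebraMap (FractionRing B) L e ∈
          Lau (k := k) (E := FractionRing B) (fun s => ψ (X s)) := fun e =>
        Algebra.subset_adjoin (Or.inl (Or.inl ⟨e, rfl⟩))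
      have hmem : ∀ a, ψ a ∈ Lau (k := k) (E := FractionRing B) (fun s => ψ (X s)) :=
        mv_mem ψ _ (fun b => by rw [← hE]; exact hE' _)
          (fun s => Algebra.subset_adjoin (Or.inl (Or.inr ⟨s, rfl⟩)))
      have hinv : ∀ s ∈ Dn S 0, (ψ s)⁻¹ ∈
          Lau (k := k) (E := FractionRing B) (fun s => ψ (X s)) := by
        intro s hs
        refine Submonoid.closure_induction (motive := fun s _ => (ψ s)⁻¹ ∈
          Lau (k := k) (E := FractionRing B) (fun s => ψ (X s))) ?_ ?_ ?_ hs
        · rintro x ((⟨b, hb, rfl⟩ | ⟨s, rfl⟩) | ⟨l, hl, -⟩)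
          · rw [← hE, ← map_inv₀]
            exact hE' _
          · exact Algebra.subset_adjoin (Or.inr ⟨s, rfl⟩)
          · exact absurd hl (Nat.not_lt_zero _)
        · rw [map_one, inv_one]; exact Subalgebra.one_mem _
        · intro x y _ _ hx hy
          rw [map_mul, mul_inv]
          exact Subalgebra.mul_mem _ hx hy
      rintro x ⟨a, s, hs, h0, h3⟩
      have h4 : x = ψ a * (ψ s)⁻¹ := by rw [← h3, mul_inv_cancel_right₀ h0]
      rw [h4]
      exact Subalgebra.mul_mem _ (hmem a) (hinv s hs)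
  · rintro D ⟨b, hb, hD⟩
    refine ⟨?_, ?_⟩
    · intro x
      obtain ⟨a, c, hc, hc0, h3⟩ := hbb x
      have h4 := congrArg D h3
      rw [Derivation.leibniz, hD, hD, dl_C, dl_C, map_zero, smul_zero, zero_add,
        smul_eq_mul] at h4
      exact (mul_eq_zero.1 h4).resolve_left hc0
    · intro s
      exact ⟨_, by rw [hD, dl_X, map_smul]⟩

/-- The induction. -/
theorem inv_all [IsDomain B] [IsNoetherianRing B] [PerfectField k] (hS : S.Ok)
    (hmono : S2_mono.{u}) (hcut : S2_cut2.{u}) (h0 : Inv k S 0) : ∀ j : ℕ, j ≤ r → Inv k S j := by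
  have key : ∀ j' : Fin r, Inv k S j'.val → Inv k S (j'.val + 1) := by
    intro j' h1
    by_cases h2 : j' ∈ S.J
    · exact inv_cut (k := k) (S := S) hS hmono hcut h2 h1
    · exact inv_kept (k := k) (S := S) hS hmono h2 h1
  intro j
  induction j with
  | zero => exact fun _ => h0
  | succ j ih =>
    intro hj
    exact key ⟨j, by omega⟩ (ih (by omega))

/-- Resolution of the components of complete intersections. -/
theorem hasResolution [IsDomain B] [IsNoetherianRing B] [PerfectField k] (hS : S.Ok)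
    (hbase : S2_base.{u}) (hmono : S2_mono.{u}) (hcut : S2_cut2.{u}) (hfinr : S2_finr.{u})
    {T I : Type} [Finite T] [Fintype I] (M : LM (⊥ : Subalgebra k (FractionRing B)) ⊤ T I)
    (Γ : S.H → I → ℤ) (hF : Fn M (fun t => algebraMap B (FractionRing B) (S.h t)) Γ)
    (hfr : ∀ t (x : FractionRing B), ∃ a ∈ M.A t, ∃ b ∈ M.A t, b ≠ 0 ∧ x = a * b⁻¹)
    (hgen : Algebra.adjoin k (Set.range S.h) = ⊤)
    (P : Ideal (MvPolynomial (Fin n) B)) [P.IsPrime]
    (hP : P ∈ (Ideal.span (S.f '' S.J)).minimalPrimes) (hPB : ∀ b : B, b ≠ 0 → C b ∉ P)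
    (hPX : ∀ s, X s ∉ P) (hPf : ∀ l, l ∉ S.J → S.f l ∉ P) :
    HasResolution (X := Spec (CommRingCat.of (MvPolynomial (Fin n) B ⧸ P)))
      (Spec.map (CommRingCat.ofHom (algebraMap k (MvPolynomial (Fin n) B ⧸ P)))) := by
  classical
  let L := FractionRing (MvPolynomial (Fin n) B ⧸ P)
  let jj : (MvPolynomial (Fin n) B ⧸ P) →ₐ[k] L :=
    IsScalarTower.toAlgHom k (MvPolynomial (Fin n) B ⧸ P) L
  let ψ : MvPolynomial (Fin n) B →ₐ[k] L := jj.comp (Ideal.Quotient.mkₐ k P)
  have hψ0 : ∀ a, ψ a = 0 ↔ a ∈ P := by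
    intro a
    change algebraMap (MvPolynomial (Fin n) B ⧸ P) L (Ideal.Quotient.mk P a) = 0 ↔ _
    rw [FaithfulSMul.algebraMap_eq_zero_iff, Ideal.Quotient.eq_zero_iff_mem]
  have hψker : RingHom.ker ψ.toRingHom = P := by
    ext a
    rw [RingHom.mem_ker]
    exact hψ0 a
  have hL : ∀ x : L, ∃ a b, ψ b ≠ 0 ∧ x * ψ b = ψ a := by
    intro x
    obtain ⟨a, b, hb, rfl⟩ := IsFractionRing.div_surjective
      (A := MvPolynomial (Fin n) B ⧸ P) x
    obtain ⟨a, rfl⟩ := Ideal.Quotient.mk_surjective a
    obtain ⟨b, rfl⟩ := Ideal.Quotient.mk_surjective b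
    have hb0 : ψ b ≠ 0 := by
      rw [ne_eq, hψ0, ← Ideal.Quotient.eq_zero_iff_mem]
      exact nonZeroDivisors.ne_zero hb
    exact ⟨a, b, hb0, div_mul_cancel₀ _ hb0⟩
  have hsp : Ideal.span (S.f '' {l | l.val < r ∧ l ∈ S.J}) = Ideal.span (S.f '' S.J) := by
    congr 2
    ext l
    exact ⟨fun h => h.2, fun h => ⟨l.2, h⟩⟩
  have hDn : ∀ s ∈ Dn S r, ψ s ≠ 0 := by
    intro s hs
    refine Submonoid.closure_induction (motive := fun s _ => ψ s ≠ 0) ?_ ?_ ?_ hs
    · rintro x ((⟨b, hb, rfl⟩ | ⟨s, rfl⟩) | ⟨l, hl, hJ, rfl⟩)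
      · exact fun h => hPB b hb ((hψ0 _).1 h)
      · exact fun h => hPX s ((hψ0 _).1 h)
      · exact fun h => hPf l hJ ((hψ0 _).1 h)
    · rw [map_one]; exact one_ne_zero
    · intro x y _ _ hx hy
      rw [map_mul]
      exact mul_ne_zero hx hy
  obtain ⟨hst, -⟩ := inv_all hS hmono hcut (inv_zero hS hbase hmono M Γ hF hfr) r le_rfl L ψ hL
    (by rw [hψker, hsp]; exact hP) hDn
  refine hfinr k L _ (gL S ψ r) _ _ hst (S.H ⊕ Fin n)
    (fun x y => Sum.elim (fun t => if y = Sum.inl t then (1 : ℤ) else 0)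
      (fun s => if y = Sum.inr (Sum.inl s) then 1 else 0) x) _ jj
    (IsFractionRing.injective _ _) ?_ ?_
  · have h1 : (fun x => ∏ y, gL S ψ r y ^ (Sum.elim (fun t => if y = Sum.inl t then (1 : ℤ) else 0)
        (fun s => if y = Sum.inr (Sum.inl s) then 1 else 0) x : ℤ)) =
        (Sum.elim (fun t => ψ (C (S.h t))) (fun s => ψ (X s)) : S.H ⊕ Fin n → L) := by
      funext x
      rcases x with t | s
      · rw [Finset.prod_eq_single (Sum.inl t)]
        · simp only [Sum.elim_inl, if_true, zpow_one]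
          rfl
        · intro y _ hy
          simp only [Sum.elim_inl, if_neg hy, zpow_zero]
        · intro h; exact absurd (Finset.mem_univ _) h
      · rw [Finset.prod_eq_single (Sum.inr (Sum.inl s))]
        · simp only [Sum.elim_inr, if_true, zpow_one]
          rfl
        · intro y _ hy
          simp only [Sum.elim_inr, if_neg hy, zpow_zero]
        · intro h; exact absurd (Finset.mem_univ _) h
    rw [h1]
    have h2 : jj.range = ψ.range := by
      apply le_antisymm
      · rintro _ ⟨a, rfl⟩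
        obtain ⟨a, rfl⟩ := Ideal.Quotient.mk_surjective a
        exact ⟨a, rfl⟩
      · rintro _ ⟨a, rfl⟩
        exact ⟨Ideal.Quotient.mk P a, rfl⟩
    rw [h2]
    apply le_antisymm
    · rintro _ ⟨a, rfl⟩
      refine mv_mem ψ _ ?_ ?_ a
      · intro b
        have hb : b ∈ Algebra.adjoin k (Set.range S.h) := by rw [hgen]; trivial
        induction hb using Algebra.adjoin_induction with
        | mem x hx =>
          obtain ⟨t, rfl⟩ := hx
          exact Algebra.subset_adjoin ⟨Sum.inl t, rfl⟩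
        | algebraMap c =>
          have : (C (algebraMap k B c) : MvPolynomial (Fin n) B) =
            algebraMap k (MvPolynomial (Fin n) B) c := rfl
          rw [this, AlgHom.commutes]
          exact Subalgebra.algebraMap_mem _ c
        | add x y _ _ hx hy =>
          rw [C_add, map_add]
          exact Subalgebra.add_mem _ hx hy
        | mul x y _ _ hx hy =>
          rw [C_mul, map_mul]
          exact Subalgebra.mul_mem _ hx hy
      · intro s
        exact Algebra.subset_adjoin ⟨Sum.inr s, rfl⟩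
    · refine Algebra.adjoin_le ?_
      rintro _ ⟨t | s, rfl⟩
      · exact ⟨_, rfl⟩
      · exact ⟨_, rfl⟩
  · intro x
    obtain ⟨a, b, hb, rfl⟩ := IsFractionRing.div_surjective
      (A := MvPolynomial (Fin n) B ⧸ P) x
    exact ⟨a, b, nonZeroDivisors.ne_zero hb, rfl⟩

end CIData

end Pool.Agent.W558
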