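import Pool.Agent.H59.L.S8.W558.S2.Stms3

set_option autoImplicit false
set_option linter.unusedVariables false
set_option linter.unusedSimpArgs false
set_option linter.unusedSectionVars false

universe u

open scoped TensorProduct

namespace Pool.Agent.W558

attribute [local instance] Algebra.TensorProduct.rightAlgebra in
/-- Algebras which are etale over a normal domain are locally domains. -/
lemma etale_idem {D S : Type u} [CommRing D] [IsDomain D] [IsIntegrallyClosed D] [CommRing S]
    [Algebra D S] [Algebra.Etale D S] (P m : Ideal S) (hP : P ∈ minimalPrimes S)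
    (hm : m.IsPrime) (hPm : P ≤ m) : ∃ e, e ∉ m ∧ ∀ a ∈ P, e * a = 0 := by
  classical
  have hPp : P.IsPrime := hP.1.1
  let K := FractionRing D
  let T := S ⊗[D] K
  have hfl : Module.Flat D S := inferInstance
  have hetKS : Algebra.Etale K (K ⊗[D] S) := inferInstance
  have hT : Algebra.Etale K T := Algebra.Etale.of_equiv (A := K ⊗[D] S)
    { Algebra.TensorProduct.comm D K S with
      commutes' := fun r => by
        change Algebra.TensorProduct.comm D K S (r ⊗ₜ 1) = 1 ⊗ₜ r
        simp }
  have hred : IsReduced T := Algebra.FormallyUnramified.isReduced_of_field K T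
  have hfin : Module.Finite K T := Algebra.FormallyUnramified.finite_of_free K T
  have hart : IsArtinianRing T := IsArtinianRing.of_finite K T
  have hinj : Function.Injective (algebraMap S T) :=
    Algebra.TensorProduct.includeLeft_injective (S := S) (IsFractionRing.injective D K)
  -- the localization
  let M : Submonoid S := Algebra.algebraMapSubmonoid S (nonZeroDivisors D)
  have hloc : IsLocalization M T := inferInstance
  have hMle : M ≤ nonZeroDivisors S := by
    rintro _ ⟨d, hd, rfl⟩
    have h1 : IsSMulRegular S d := by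
      have := Module.Flat.isSMulRegular_of_nonZeroDivisors hd (M := S)
      exact this
    rw [mem_nonZeroDivisors_iff_right]
    intro x hx
    apply h1
    change d • x = d • 0
    rw [smul_zero, Algebra.smul_def, mul_comm]
    exact hx
  have hdisj : Disjoint (M : Set S) (P : Set S) :=
    ((Ideal.disjoint_nonZeroDivisors_of_mem_minimalPrimes hP).mono_right
      (fun x hx => hMle hx)).symm
  have hP' : (P.map (algebraMap S T)).IsPrime :=
    IsLocalization.isPrime_of_isPrime_disjoint M T P hPp hdisj
  have hmax : (P.map (algebraMap S T)).IsMaximal := hP'.isMaximal'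
  let J : MaximalSpectrum T := ⟨P.map (algebraMap S T), hmax⟩
  let e' : T := (IsArtinianRing.equivPi T).symm (Pi.single J 1)
  have he1 : IsArtinianRing.equivPi T e' = Pi.single J 1 :=
    (IsArtinianRing.equivPi T).apply_symm_apply _
  have hidem : e' * e' = e' := by
    apply (IsArtinianRing.equivPi T).injective
    rw [map_mul, he1, ← Pi.single_mul, one_mul]
  have hkill : ∀ a ∈ P.map (algebraMap S T), e' * a = 0 := by
    intro a ha
    apply (IsArtinianRing.equivPi T).injective
    rw [map_mul, he1, map_zero]
    funext I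
    rw [Pi.mul_apply, Pi.zero_apply]
    by_cases hI : I = J
    · subst hI
      rw [IsArtinianRing.equivPi_apply, Pi.single_eq_same, one_mul]
      exact Ideal.Quotient.eq_zero_iff_mem.2 ha
    · rw [Pi.single_eq_of_ne hI, zero_mul]
  have hnot : e' ∉ P.map (algebraMap S T) := by
    intro h
    have h1 : (IsArtinianRing.equivPi T e') J = 0 := by
      rw [IsArtinianRing.equivPi_apply]
      exact Ideal.Quotient.eq_zero_iff_mem.2 h
    rw [he1, Pi.single_eq_same] at h1
    exact one_ne_zero h1
  -- the idempotent is integral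
  have hint : IsIntegral S e' := by
    refine ⟨Polynomial.X ^ 2 - Polynomial.X, ?_, ?_⟩
    · monicity!
    · simp only [Polynomial.eval₂_sub, Polynomial.eval₂_pow, Polynomial.eval₂_X]
      rw [pow_two, hidem, sub_self]
  have hbij := TensorProduct.toIntegralClosure_bijective_of_smooth (R := D) (S := S) (B := K)
  obtain ⟨x, hx⟩ := hbij.2 ⟨e', hint⟩
  have hic : ∀ y : integralClosure D K, ∃ d : D, algebraMap D K d = y := fun y =>
    IsIntegrallyClosed.isIntegral_iff.1 y.2
  obtain ⟨e, he⟩ : ∃ e : S, algebraMap S T e = e' := by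
    have h1 : ∀ x : S ⊗[D] integralClosure D K, ∃ e : S, algebraMap S T e =
        ((TensorProduct.toIntegralClosure D S K x : integralClosure S (S ⊗[D] K)) : T) := by
      intro x
      induction x with
      | zero => exact ⟨0, by simp⟩
      | add x y hx hy =>
        obtain ⟨a, ha⟩ := hx
        obtain ⟨b, hb⟩ := hy
        exact ⟨a + b, by rw [map_add, map_add, ha, hb]; rfl⟩
      | tmul s y =>
        obtain ⟨d, hd⟩ := hic y
        refine ⟨d • s, ?_⟩
        change (d • s) ⊗ₜ[D] (1 : K) = s ⊗ₜ[D] (y : K)
        rw [← hd, Algebra.algebraMap_eq_smul_one, TensorProduct.tmul_smul,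
          TensorProduct.smul_tmul']
    obtain ⟨e, he⟩ := h1 x
    refine ⟨e, ?_⟩
    rw [he, hx]
  refine ⟨e, ?_, ?_⟩
  · intro hem
    have h1 : (1 - e') ∈ P.map (algebraMap S T) := by
      have h2 : e' * (1 - e') ∈ P.map (algebraMap S T) := by
        rw [mul_sub, mul_one, hidem, sub_self]
        exact Ideal.zero_mem _
      exact (hP'.mem_or_mem h2).resolve_left hnot
    have h3 : algebraMap S T (1 - e) ∈ P.map (algebraMap S T) := by
      rw [map_sub, map_one, he]
      exact h1
    have h4 : (1 - e) ∈ (P.map (algebraMap S T)).comap (algebraMap S T) := h3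
    have h6 : Ideal.comap (algebraMap S T) (Ideal.map (algebraMap S T) P) = P :=
      IsLocalization.under_map_of_isPrime_disjoint M T hPp hdisj
    rw [h6] at h4
    have h5 : (1 : S) ∈ m := by
      have := m.add_mem (hPm h4) hem
      rwa [sub_add_cancel] at this
    exact hm.ne_top ((Ideal.eq_top_iff_one m).2 h5)
  · intro a ha
    apply hinj
    rw [map_mul, he, map_zero]
    exact hkill _ (Ideal.mem_map_of_mem _ ha)

theorem loc_main : S2_loc.{u} := by
  intro k R _ _ _ _ P m hP hm hPm
  have hPp : P.IsPrime := hP.1.1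
  have hN : IsNoetherianRing R := Algebra.FiniteType.isNoetherianRing k R
  obtain ⟨f, hf, n, i1, i2, i3⟩ := Algebra.IsSmoothAt.exists_isStandardEtale_mvPolynomial
    (R := k) (p := m)
  let S := Localization.Away f
  have hdm : Disjoint (Submonoid.powers f : Set R) (m : Set R) :=
    (Ideal.disjoint_powers_iff_notMem_of_isPrime _).2 hf
  have hdP : Disjoint (Submonoid.powers f : Set R) (P : Set R) := hdm.mono_right hPm
  have hmS : (m.map (algebraMap R S)).IsPrime :=
    IsLocalization.isPrime_of_isPrime_disjoint (Submonoid.powers f) S m hm hdm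
  have hPS : (P.map (algebraMap R S)).IsPrime :=
    IsLocalization.isPrime_of_isPrime_disjoint (Submonoid.powers f) S P hPp hdP
  have hPSmin : P.map (algebraMap R S) ∈ minimalPrimes S := by
    refine ⟨⟨hPS, bot_le⟩, ?_⟩
    rintro q ⟨hq, -⟩ hle
    have h1 : q.comap (algebraMap R S) ≤ P := by
      have := Ideal.comap_mono (f := algebraMap R S) hle
      have h6 : Ideal.comap (algebraMap R S) (Ideal.map (algebraMap R S) P) = P :=
        IsLocalization.under_map_of_isPrime_disjoint (Submonoid.powers f) S hPp hdP
      rwa [h6] at this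
    have h2 := hP.2 ⟨hq.comap _, bot_le⟩ h1
    exact Ideal.map_le_iff_le_comap.2 h2
  obtain ⟨e, he, hkill⟩ := etale_idem (D := MvPolynomial (Fin n) k) (S := S) _ _ hPSmin hmS
    (Ideal.map_mono hPm)
  obtain ⟨r, s, rfl⟩ := IsLocalization.exists_mk'_eq (Submonoid.powers f) e
  have hr : r ∉ m := by
    intro h
    apply he
    exact (IsLocalization.mk'_mem_map_algebraMap_iff _ _ _ _ _).2 ⟨1, one_mem _, by simpa using h⟩
  have h3 : ∀ a ∈ P, ∃ N : ℕ, f ^ N * (r * a) = 0 := by
    intro a ha
    have h4 := hkill _ (Ideal.mem_map_of_mem (algebraMap R S) ha)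
    have h5 : algebraMap R S (r * a) = 0 := by
      rw [map_mul, ← IsLocalization.mk'_spec S r s]
      rw [mul_right_comm, h4, zero_mul]
    obtain ⟨⟨_, N, rfl⟩, h6⟩ := (IsLocalization.map_eq_zero_iff (Submonoid.powers f) S _).1 h5
    exact ⟨N, h6⟩
  obtain ⟨t, ht⟩ := (IsNoetherian.noetherian P : P.FG)
  have h4 : ∀ x : t, ∃ N : ℕ, f ^ N * (r * x.1) = 0 := fun x => h3 x.1 (by
    rw [← ht]; exact Ideal.subset_span x.2)
  choose N hN' using h4
  let N0 := ∑ x, N x
  refine ⟨f ^ N0 * r, ?_, ?_⟩
  · intro h
    rcases hm.mem_or_mem h with h | h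
    · exact hf (hm.mem_of_pow_mem _ h)
    · exact hr h
  · intro a ha
    rw [← ht] at ha
    refine Submodule.span_induction (p := fun a _ => f ^ N0 * r * a = 0) ?_ ?_ ?_ ?_ ha
    · intro x hx
      have h5 : N0 = N ⟨x, hx⟩ + (N0 - N ⟨x, hx⟩) := by
        have := Finset.single_le_sum (f := N) (fun _ _ => Nat.zero_le _) (Finset.mem_univ ⟨x, hx⟩)
        omega
      have h6 : f ^ N0 * r * x = f ^ (N0 - N ⟨x, hx⟩) * (f ^ N ⟨x, hx⟩ * (r * x)) := by
        conv_lhs => rw [h5, pow_add]
        ring
      rw [h6, hN' ⟨x, hx⟩, mul_zero]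
    · rw [mul_zero]
    · intro x y _ _ hx hy
      rw [mul_add, hx, hy, add_zero]
    · intro c x _ hx
      rw [smul_eq_mul, mul_left_comm, hx, mul_zero]

end Pool.Agent.W558
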