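import Pool.Agent.H59.L.S8.W558.S2.Stms2

set_option autoImplicit false
set_option linter.unusedVariables false

universe u

open Polynomial AlgebraicGeometry CategoryTheory Pool.Agent.H920R2

namespace Pool.Agent.W558

/-- LOC: smooth algebras over a field are locally domains. -/
def S2_loc : Prop := ∀ (k R : Type u) [Field k] [CommRing R] [Algebra k R] [Algebra.Smooth k R]
  (P m : Ideal R), P ∈ minimalPrimes R → m.IsPrime → P ≤ m → ∃ e, e ∉ m ∧ ∀ a ∈ P, e * a = 0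

/-- CUT2: restriction to a component of the divisor of a function. -/
def S2_cut2 : Prop := ∀ (k K L : Type u) [Field k] [Field K] [Algebra k K] [Field L]
  [Algebra k L] [PerfectField k] (G : Type) [Fintype G] (g : G → K) (Q : Subalgebra k K)
  (Ds : Set (Derivation k K K)), Sta g Q Ds → IsNoetherianRing Q →
  (∀ x : K, ∃ a b : Q, b ≠ 0 ∧ x * b = a) →
  ∀ (ι : Type) [Fintype ι] [Nonempty ι] (e : ι → G → ℤ) (c : ι → k) (f : Q),
  (∀ i, c i ≠ 0) → (f : K) = ∑ i, c i • ∏ a, g a ^ e i a → (f : K) ≠ 0 →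
  SepD Ds (fun i => ∏ a, g a ^ e i a) →
  ∀ π : Q →ₐ[k] L, RingHom.ker π.toRingHom ∈ (Ideal.span {f}).minimalPrimes →
  (∀ x : L, ∃ a b : Q, π b ≠ 0 ∧ x * π b = π a) →
  ∀ g' : G → L, (∀ a (h : g a ∈ Q), g' a = π ⟨g a, h⟩) →
  (∀ a, π a = 0 → ∃ e, π e ≠ 0 ∧ f ∣ e * a) ∧
  Sta g' π.range {D' | ∃ D ∈ Ds, (∃ χ : k, D f = χ • (f : K)) ∧
    ∀ (q : Q) (h : D q ∈ Q), D' (π q) = π ⟨D q, h⟩}

end Pool.Agent.W558
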