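import Pool.Agent.H59.L.S8.W558.S2.Princ3
import Pool.Agent.H59.L.S8.W558.S2.Stms2

set_option autoImplicit false
set_option linter.unusedVariables false
set_option linter.unusedSimpArgs false
set_option linter.unusedSectionVars false

universe u v

open Polynomial

namespace Pool.Agent.W558

section add3

variable {k K : Type u} [Field k] [Field K] [Algebra k K]
    {T I : Type} [Fintype I] {ι : Type} [Fintype ι] [Nonempty ι]
    {M : LM (⊥ : Subalgebra k K) ⊤ T I} {m : ι → K} {Γ : ι → I → ℤ} {c : ι → k} {f : K}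

/-- One of the derivations does not kill the local equation of the new divisor. -/
lemma exists_der_add3 (h : AddData M m Γ c f) (Ds : Set (Derivation k K K))
    (hLD : ∀ D ∈ Ds, LD M D)
    (sep : ∀ i, ∃ D ∈ Ds, ∃ l : k, D (m i) = (l + 1) • m i ∧ ∀ j, j ≠ i → D (m j) = l • m j)
    (t : T) (i0 : ι) (hi0 : ∀ b, Le M t (Γ i0) (Γ b)) (hfA : f / m i0 ∈ M.A t)
    (κ : Type u) [Field κ] [Algebra k κ] (φ : M.A t →ₐ[k] κ) (hφ : φ ⟨f / m i0, hfA⟩ = 0) :
    ∃ D, ∃ hD : D ∈ Ds, (TV.ofDer D ((hLD D hD).dA t) φ).D ⟨f / m i0, hfA⟩ ≠ 0 := by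
  classical
  have hT := nonempty_T M
  have hm0 : ∀ i, m i ≠ 0 := h.fn.ne
  have hmem : ∀ i, m i / m i0 ∈ M.A t := fun i => div_mem_of_le M t m Γ h.fn (hi0 i)
  have hfeq : f / m i0 = ∑ i, c i • (m i / m i0) := by
    rw [h.hf, Finset.sum_div]
    exact Finset.sum_congr rfl fun i _ => by rw [smul_div_assoc]
  by_contra hcon
  push Not at hcon
  have key : ∀ i, i ≠ i0 → φ ⟨m i / m i0, hmem i⟩ = 0 := by
    intro i hi
    obtain ⟨D, hDs, l, h1, h2⟩ := sep i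
    have hD := hLD D hDs
    let δ := TV.ofDer D (hD.dA t) φ
    have hDf : D (f / m i0) = c i • (m i / m i0) := by
      rw [hfeq, map_sum, Finset.sum_eq_single i]
      · rw [Derivation.map_smul]
        congr 1
        have h3 := h2 i0 (Ne.symm hi)
        rw [div_eq_mul_inv, Derivation.leibniz, Derivation.leibniz_inv, h1, h3]
        have h4 := hm0 i0
        simp only [smul_eq_mul, Algebra.smul_def]
        rw [map_add, map_one]
        field_simp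
        ring
      · intro j _ hj
        rw [Derivation.map_smul, div_eq_mul_inv, Derivation.leibniz, Derivation.leibniz_inv,
          h2 j hj, h2 i0 (Ne.symm hi)]
        have h4 := hm0 i0
        simp only [smul_eq_mul, Algebra.smul_def]
        field_simp
        ring
      · intro h; exact absurd (Finset.mem_univ i) h
    by_contra hne
    have h5 : δ.D ⟨f / m i0, hfA⟩ ≠ 0 := by
      change φ ⟨D (f / m i0), _⟩ ≠ 0
      have e : (⟨D (f / m i0), hD.dA t _ hfA⟩ : M.A t) =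
          c i • ⟨m i / m i0, hmem i⟩ := Subtype.ext hDf
      rw [e, map_smul]
      exact smul_ne_zero (h.c0 i) hne
    exact h5 (hcon D hDs)
  have h8 : φ ⟨f / m i0, hfA⟩ = algebraMap k κ (c i0) := by
    have e : (⟨f / m i0, hfA⟩ : M.A t) = ∑ i, c i • ⟨m i / m i0, hmem i⟩ := by
      apply Subtype.ext
      refine hfeq.trans ?_
      simp
    rw [e, map_sum, Finset.sum_eq_single i0]
    · rw [map_smul]
      have e2 : (⟨m i0 / m i0, hmem i0⟩ : M.A t) = 1 :=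
        Subtype.ext (div_self (hm0 _))
      rw [e2, map_one, Algebra.algebraMap_eq_smul_one]
    · intro i _ hi
      rw [map_smul, key i hi, smul_zero]
    · intro h; exact absurd (Finset.mem_univ _) h
  rw [hφ] at h8
  exact h.c0 i0 ((map_eq_zero _).1 h8.symm)

/-- Derivations which multiply `f` by a constant preserve the localization at `f`. -/
lemma der_adj_mem {Q : Subalgebra k K} {D : Derivation k K K} (hD : ∀ q ∈ Q, D q ∈ Q) {χ : k}
    {f : K} (hf0 : f ≠ 0) (hf : D f = χ • f) : ∀ q ∈ adj Q f⁻¹, D q ∈ adj Q f⁻¹ := by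
  intro q hq
  refine (adj_induction Q f⁻¹ (p := fun q => q ∈ adj Q f⁻¹ ∧ D q ∈ adj Q f⁻¹) ?_ ?_ ?_ q hq).2
  · exact fun a ha => ⟨le_adj Q _ ha, le_adj Q _ (hD a ha)⟩
  · rintro a b ⟨h1, h2⟩ ⟨h3, h4⟩
    exact ⟨(adj Q f⁻¹).add_mem h1 h3, by rw [map_add]; exact (adj Q f⁻¹).add_mem h2 h4⟩
  · rintro a ⟨h1, h2⟩
    refine ⟨(adj Q f⁻¹).mul_mem h1 (self_mem_adj _ _), ?_⟩
    rw [Derivation.leibniz, Derivation.leibniz_inv, hf]
    have e : a • (-f⁻¹ ^ 2 • χ • f) + f⁻¹ • D a = (-χ) • (a * f⁻¹) + D a * f⁻¹ := by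
      simp only [smul_eq_mul, Algebra.smul_def, map_neg]
      field_simp
    rw [e]
    exact (adj Q f⁻¹).add_mem ((adj Q f⁻¹).smul_mem ((adj Q f⁻¹).mul_mem h1 (self_mem_adj _ _)) _)
      ((adj Q f⁻¹).mul_mem h2 (self_mem_adj _ _))

lemma bas_add (h : AddData M m Γ c f) {Q : Subalgebra k K} {Ds Ds' : Set (Derivation k K K)}
    {B : T → Subalgebra k K} {b : T → K} (hB : Bas Q Ds M B b)
    (hLD : ∀ D ∈ Ds, LD M D)
    (sep : ∀ i, ∃ D ∈ Ds, ∃ l : k, D (m i) = (l + 1) • m i ∧ ∀ j, j ≠ i → D (m j) = l • m j)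
    (hDs : Ds' ⊆ Ds) (hm : ∀ i, m i ∈ Q ∧ (m i)⁻¹ ∈ Q)
    (i0 : T → ι) (M' : LM (⊥ : Subalgebra k K) ⊤ T (Option I))
    (hi0 : ∀ t b, Le M t (Γ (i0 t)) (Γ b))
    (hA : M'.A = M.A)
    (hx : ∀ t, M'.x t = fun o : Option I => o.elim (f / m (i0 t)) (M.x t)) :
    Bas (adj Q f⁻¹) Ds' M' B b := by
  classical
  have hT := nonempty_T M
  have hm0 : ∀ i, m i ≠ 0 := h.fn.ne
  have hf0 := h.f0
  have hprod : ∀ t, ∏ o, M'.x t o = f / m (i0 t) * ∏ i, M.x t i := by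
    intro t
    rw [Fintype.prod_option, hx]
    rfl
  have hy : ∀ t, f / m (i0 t) ∈ M.A t := by
    intro t
    have h1 := M'.xA t none
    rw [hA, hx] at h1
    exact h1
  have hX : ∀ t, ∏ i, M.x t i ∈ M.A t := fun t => (M.A t).prod_mem fun i _ => M.xA t i
  refine ⟨?_, ?_, ?_, hB.ft, hB.bB, hB.b0, fun D hD => hB.DB D (hDs hD), ?_, ?_, ?_, ?_⟩
  · rw [hA]
    exact fun t => (hB.A t).trans (le_adj _ _)
  · rintro t (_ | i)
    · rw [hx]
      change (f / m (i0 t))⁻¹ ∈ adj Q f⁻¹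
      rw [inv_div, div_eq_mul_inv]
      exact (adj Q f⁻¹).mul_mem (le_adj _ _ (hm _).1) (self_mem_adj _ _)
    · rw [hx]
      exact le_adj _ _ (hB.x t i)
  · rw [hA]
    exact hB.BA
  · exact fun t c hc hc0 => le_adj _ _ (hB.BQ t c hc hc0)
  · intro t q hq
    rw [hA]
    simp only [hprod]
    refine adj_induction Q f⁻¹ (p := fun q => ∃ c ∈ B t, ∃ N : ℕ, c ≠ 0 ∧
      c * (f / m (i0 t) * ∏ i, M.x t i) ^ N * q ∈ M.A t) ?_ ?_ ?_ q hq
    · intro q hq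
      obtain ⟨c, hc, N, hc0, h1⟩ := hB.cof t q hq
      refine ⟨c, hc, N, hc0, ?_⟩
      have e : c * (f / m (i0 t) * ∏ i, M.x t i) ^ N * q =
          (f / m (i0 t)) ^ N * (c * (∏ i, M.x t i) ^ N * q) := by
        rw [mul_pow]; ring
      rw [e]
      exact (M.A t).mul_mem ((M.A t).pow_mem (hy t) N) h1
    · rintro a a' ⟨c, hc, N, hc0, h1⟩ ⟨c', hc', N', hc0', h1'⟩
      refine ⟨c * c', (B t).mul_mem hc hc', N + N', mul_ne_zero hc0 hc0', ?_⟩
      have e : c * c' * (f / m (i0 t) * ∏ i, M.x t i) ^ (N + N') * (a + a') =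
          c' * (f / m (i0 t) * ∏ i, M.x t i) ^ N' *
            (c * (f / m (i0 t) * ∏ i, M.x t i) ^ N * a) +
          c * (f / m (i0 t) * ∏ i, M.x t i) ^ N *
            (c' * (f / m (i0 t) * ∏ i, M.x t i) ^ N' * a') := by
        rw [pow_add]; ring
      rw [e]
      have h2 : ∀ n : ℕ, (f / m (i0 t) * ∏ i, M.x t i) ^ n ∈ M.A t := fun n =>
        (M.A t).pow_mem ((M.A t).mul_mem (hy t) (hX t)) n
      exact (M.A t).add_mem
        ((M.A t).mul_mem ((M.A t).mul_mem (hB.BA t hc') (h2 _)) h1)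
        ((M.A t).mul_mem ((M.A t).mul_mem (hB.BA t hc) (h2 _)) h1')
    · rintro a ⟨c, hc, N, hc0, h1⟩
      obtain ⟨c', hc', N', hc0', h1'⟩ := hB.cof t _ (hm (i0 t)).2
      refine ⟨c * c', (B t).mul_mem hc hc', N + N' + 1, mul_ne_zero hc0 hc0', ?_⟩
      have h2 := hm0 (i0 t)
      have e : c * c' * (f / m (i0 t) * ∏ i, M.x t i) ^ (N + N' + 1) * (a * f⁻¹) =
          (c * (f / m (i0 t) * ∏ i, M.x t i) ^ N * a) *
          (c' * (∏ i, M.x t i) ^ N' * (m (i0 t))⁻¹) *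
          ((f / m (i0 t)) ^ N' * ∏ i, M.x t i) := by
        rw [pow_succ, pow_add, mul_pow _ _ N']
        field_simp
      rw [e]
      exact (M.A t).mul_mem ((M.A t).mul_mem h1 h1') ((M.A t).mul_mem
        ((M.A t).pow_mem (hy t) _) (hX t))
  · intro t
    obtain ⟨N, h1⟩ := hB.bx t
    refine ⟨N, ?_⟩
    rw [hA, hprod, mul_pow, mul_div_assoc]
    exact (M.A t).mul_mem ((M.A t).pow_mem (hy t) N) h1
  · intro t κ _ _ φ φ0 hφ hb D0
    have key : ∀ (A' : Subalgebra k K) (hA' : A' = M.A t) (x' : Option I → K)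
        (hx' : x' = fun o : Option I => o.elim (f / m (i0 t)) (M.x t)) (hBA : B t ≤ A')
        (φ : A' →ₐ[k] κ) (hφ : ∀ c (hc : c ∈ B t), φ ⟨c, hBA hc⟩ = φ0 ⟨c, hc⟩)
        (hxm : ∀ i, x' i ∈ A'),
        ∃ D : TV φ, (∀ c (hc : c ∈ B t), D.D ⟨c, hBA hc⟩ = D0.D ⟨c, hc⟩) ∧
          ∀ i, φ ⟨x' i, hxm i⟩ = 0 → D.D ⟨x' i, hxm i⟩ = 0 := by
      intro A' hA' x' hx' hBA φ hφ hxm
      subst hA'
      subst hx'
      obtain ⟨D, hD1, hD2⟩ := hB.sub t κ φ φ0 hφ hb D0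
      by_cases hφy : φ ⟨f / m (i0 t), hy t⟩ = 0
      · obtain ⟨δ0, hδ, h3⟩ := exists_der_add3 h Ds hLD sep t (i0 t) (hi0 t) (hy t) κ φ hφy
        have hδL := hLD δ0 hδ
        have hδB : ∀ c (hc : c ∈ B t), (TV.ofDer δ0 (hδL.dA t) φ).D ⟨c, hBA hc⟩ = 0 := by
          intro c hc
          rw [TV.ofDer_D]
          have e : (⟨δ0 c, hδL.dA t c (hBA hc)⟩ : M.A t) = 0 :=
            Subtype.ext (hB.DB δ0 hδ t c hc)
          rw [e, map_zero]
        have hδx : ∀ i, φ ⟨M.x t i, M.xA t i⟩ = 0 →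
            (TV.ofDer δ0 (hδL.dA t) φ).D ⟨M.x t i, M.xA t i⟩ = 0 := by
          intro l hl
          rw [TV.ofDer_D]
          have e : (⟨δ0 (M.x t l), hδL.dA t _ (M.xA t l)⟩ : M.A t) =
              ⟨δ0 (M.x t l) / M.x t l, hδL.dx t l⟩ * ⟨M.x t l, M.xA t l⟩ := by
            apply Subtype.ext
            change δ0 (M.x t l) = δ0 (M.x t l) / M.x t l * M.x t l
            rw [div_mul_cancel₀ _ (M.x0 t l)]
          rw [e, map_mul, hl, mul_zero]
        refine ⟨TV.comb 1 (-(D.D ⟨f / m (i0 t), hy t⟩ *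
          ((TV.ofDer δ0 (hδL.dA t) φ).D ⟨f / m (i0 t), hy t⟩)⁻¹)) D
            (TV.ofDer δ0 (hδL.dA t) φ), ?_, ?_⟩
        · intro c hc
          rw [TV.comb_D, hδB c hc, mul_zero, add_zero, one_mul]
          exact hD1 c hc
        · rintro (_ | i) hi
          · refine (TV.comb_D _ _ _ _ _).trans ?_
            change 1 * D.D ⟨f / m (i0 t), hy t⟩ + -(D.D ⟨f / m (i0 t), hy t⟩ *
              ((TV.ofDer δ0 (hδL.dA t) φ).D ⟨f / m (i0 t), hy t⟩)⁻¹) *
              ((TV.ofDer δ0 (hδL.dA t) φ).D ⟨f / m (i0 t), hy t⟩) = 0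
            rw [neg_mul, mul_assoc, inv_mul_cancel₀ h3]
            ring
          · refine (TV.comb_D _ _ _ _ _).trans ?_
            change 1 * D.D ⟨M.x t i, M.xA t i⟩ + -(D.D ⟨f / m (i0 t), hy t⟩ *
              ((TV.ofDer δ0 (hδL.dA t) φ).D ⟨f / m (i0 t), hy t⟩)⁻¹) *
              ((TV.ofDer δ0 (hδL.dA t) φ).D ⟨M.x t i, M.xA t i⟩) = 0
            rw [hδx i hi, hD2 i hi]
            ring
      · refine ⟨D, hD1, ?_⟩
        rintro (_ | i) hi
        · exact absurd hi hφy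
        · exact hD2 i hi
    exact key (M'.A t) (by rw [hA]) (M'.x t) (hx t) (by rw [hA]; exact hB.BA t) φ hφ (M'.xA t)

end add3

theorem add3_main : S2_add.{u} := by
  classical
  intro k K _ _ _ G _ g Q Ds hst ι _ _ e c f hc hf hf0 sep
  obtain ⟨hgQ, hDQ, hχ, T, I, i1, i2, i3, M, Γ, B, b, hFn, hLD, hB⟩ := hst
  have hT := nonempty_T M
  have hg0 : ∀ b, g b ≠ 0 := hFn.ne
  let m : ι → K := fun i => ∏ b, g b ^ e i b
  let g' : G ⊕ ι → K := Sum.elim g m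
  let Γ' : G ⊕ ι → I → ℤ := Sum.elim Γ fun i l => ∑ b, e i b * Γ b l
  have hFn' : Fn M g' Γ' := by
    rintro (b | i)
    · exact hFn b
    · exact fn_mono hFn e i
  obtain ⟨T1, I1, j1, j2, j3, M1, Γ1, hE, hC⟩ := princ3_main k K T I (G ⊕ ι) M g' Γ'
  have hFn1 := hE.1.fn hFn'
  obtain ⟨B', b', hB'⟩ := hE.2 Q Ds B b hB
  have hAD : AddData M1 m (Γ1 ∘ Sum.inr) c f :=
    { fn := hFn1.comp Sum.inr
      cmp := fun a b => hC _ _
      c0 := hc
      hf := hf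
      f0 := hf0
      sep := fun i => by
        obtain ⟨D, hD, l, h1, h2⟩ := sep i
        exact ⟨D, l, hE.1.ld D (hLD D hD), h1, h2⟩ }
  obtain ⟨i0, M2, hi0, hA, hH, hx⟩ := exists_add hAD
  have hmQ : ∀ i, m i ∈ Q ∧ (m i)⁻¹ ∈ Q := by
    intro i
    refine ⟨Q.prod_mem fun a _ => zpow_mem_of (hgQ a).1 (Or.inr (hgQ a).2), ?_⟩
    change (∏ b, g b ^ e i b)⁻¹ ∈ Q
    rw [← Finset.prod_inv_distrib]
    refine Q.prod_mem fun a _ => ?_
    rw [← zpow_neg]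
    exact zpow_mem_of (hgQ a).1 (Or.inr (hgQ a).2)
  have hfQ : f ∈ Q := by
    rw [hf]
    exact Q.sum_mem fun i _ => Q.smul_mem (hmQ i).1 _
  refine ⟨?_, ?_, ?_, T1, Option I1, j1, inferInstance, inferInstance, M2,
    fun o => o.elim (addγ (Γ1 ∘ Sum.inr)) fun b => ext0 (Γ1 (Sum.inl b)), B', b', ?_, ?_, ?_⟩
  · rintro (_ | a)
    · exact ⟨le_adj _ _ hfQ, self_mem_adj _ _⟩
    · exact ⟨le_adj _ _ (hgQ a).1, le_adj _ _ (hgQ a).2⟩
  · rintro D ⟨hD, χ, hDf⟩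
    exact der_adj_mem (hDQ D hD) hf0 hDf
  · rintro D ⟨hD, χ, hDf⟩ (_ | a)
    · exact ⟨χ, hDf⟩
    · exact hχ D hD a
  · rintro (_ | b)
    · exact fn_add hAD i0 M2 hi0 hA hx ()
    · exact fn_ext0 (hFn1.comp Sum.inl) M2 hA _ hx b
  · rintro D ⟨hD, χ, hDf⟩
    choose χg hχg using hχ D hD
    exact ld_add hAD i0 M2 hA hx D (hE.1.ld D (hLD D hD)) hDf
      (fun i => der_mono D Finset.univ g hg0 χg hχg (e i))
  · exact bas_add hAD hB' (fun D hD => hE.1.ld D (hLD D hD)) sep (fun D hD => hD.1) hmQ i0 M2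
      hi0 hA hx

end Pool.Agent.W558
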