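import Pool.Agent.H59.L.S8.W558.S2.QS
import Pool.Agent.H59.L.S8.W558.S2.Add3
import Pool.Agent.H59.L.S8.W558.Tower

set_option autoImplicit false
set_option linter.unusedVariables false
set_option linter.unusedSimpArgs false
set_option linter.unusedSectionVars false

universe u

open AlgebraicGeometry CategoryTheory Pool.Agent.H920R2 MvPolynomial

namespace Pool.Agent.W558

section eig

variable {k R : Type u} [Field k] [CommRing R] [Algebra k R] (δ : Derivation k R R)

lemma eig_mul {x y : R} {a b : k} (hx : δ x = a • x) (hy : δ y = b • y) :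
    δ (x * y) = (a + b) • (x * y) := by
  rw [Derivation.leibniz, hx, hy]
  simp only [smul_eq_mul, Algebra.smul_def, map_add]
  ring

lemma eig_pow {x : R} {a : k} (hx : δ x = a • x) (n : ℕ) : δ (x ^ n) = ((n : k) * a) • x ^ n := by
  induction n with
  | zero => rw [pow_zero, Derivation.map_one_eq_zero, Nat.cast_zero, zero_mul, zero_smul]
  | succ n ih =>
    rw [pow_succ, eig_mul δ ih hx, Nat.cast_succ, add_mul, one_mul]

lemma eig_prod {S : Type*} (s : Finset S) (x : S → R) (a : S → k) (n : S → ℕ)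
    (hx : ∀ i ∈ s, n i ≠ 0 → δ (x i) = a i • x i) :
    δ (∏ i ∈ s, x i ^ n i) = (∑ i ∈ s, (n i : k) * a i) • ∏ i ∈ s, x i ^ n i := by
  classical
  induction s using Finset.induction_on with
  | empty => simp
  | insert i s hi ih =>
    rw [Finset.prod_insert hi, Finset.sum_insert hi]
    refine eig_mul δ ?_ (ih fun j hj => hx j (Finset.mem_insert_of_mem hj))
    by_cases h0 : n i = 0
    · rw [h0, pow_zero, Derivation.map_one_eq_zero, Nat.cast_zero, zero_mul, zero_smul]
    · exact eig_pow δ (hx i (Finset.mem_insert_self i s) h0) (n i)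

end eig

/-- The data of a complete intersection. -/
structure CIData (B : Type u) [CommRing B] (p n r : ℕ) where
  /-- the indices of the monomials -/
  ι : Fin r → Type
  fin : ∀ j, Fintype (ι j)
  /-- the indices of the functions on the base -/
  H : Type
  finH : Fintype H
  /-- the functions on the base -/
  h : H → B
  /-- the first monomial -/
  i0 : ∀ j, ι j
  /-- the coefficients -/
  c : ∀ j, ι j → H
  /-- the exponents of the coordinates -/
  a : ∀ j, ι j → Fin n → ℕ
  /-- the exponents of the polynomials -/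
  e : ∀ j, ι j → Fin r → ℕ
  /-- the polynomials -/
  f : Fin r → MvPolynomial (Fin n) B
  /-- the degrees of the polynomials -/
  deg : Fin r → Fin n → ZMod p
  /-- the equations -/
  J : Set (Fin r)

namespace CIData

variable {k B : Type u} [Field k] [CommRing B] [Algebra k B] {p : ℕ} {n r : ℕ}
  (S : CIData B p n r)

instance (j : Fin r) : Fintype (S.ι j) := S.fin j
instance : Fintype S.H := S.finH

/-- The monomials without coefficients. -/
noncomputable def m (j : Fin r) (i : S.ι j) : MvPolynomial (Fin n) B :=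
  (∏ s, X s ^ S.a j i s) * ∏ l, S.f l ^ S.e j i l

/-- The terms. -/
noncomputable def tm (j : Fin r) (i : S.ι j) : MvPolynomial (Fin n) B :=
  C (S.h (S.c j i)) * S.m j i

/-- The degrees of the monomials. -/
def w (j : Fin r) (i : S.ι j) (s : Fin n) : ZMod p :=
  S.a j i s + ∑ l, S.e j i l * S.deg l s

/-- The differences of the degrees. -/
def v (q : Σ j, {i : S.ι j // i ≠ S.i0 j}) (s : Fin n) : ZMod p :=
  S.w q.1 q.2 s - S.deg q.1 s

/-- The conditions. -/
structure Ok : Prop where
  h0 : ∀ t, S.h t ≠ 0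
  e0 : ∀ j i l, (j ≤ l ∨ l ∈ S.J) → S.e j i l = 0
  hf : ∀ j, S.f j = ∑ i, S.tm j i
  hdeg : ∀ j s, S.deg j s = S.w j (S.i0 j) s
  ind : LinearIndependent (ZMod p) S.v

variable {S} [Fact p.Prime] [CharP k p]

/-- The derivation with given weights of the coordinates. -/
noncomputable def dl (k B : Type u) [Field k] [CommRing B] [Algebra k B] {p : ℕ} [Fact p.Prime]
    [CharP k p] {n : ℕ} (b : Fin n → ZMod p) :
    Derivation k (MvPolynomial (Fin n) B) (MvPolynomial (Fin n) B) :=
  (mkDerivation B fun s => ZMod.castHom (dvd_refl p) k (b s) •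
    (X s : MvPolynomial (Fin n) B)).restrictScalars k

lemma dl_C (b : Fin n → ZMod p) (x : B) : dl k B b (C x) = 0 := by
  change mkDerivation B _ (algebraMap B (MvPolynomial (Fin n) B) x) = 0
  rw [Derivation.map_algebraMap]

lemma dl_X (b : Fin n → ZMod p) (s : Fin n) :
    dl k B b (X s) = ZMod.castHom (dvd_refl p) k (b s) • (X s : MvPolynomial (Fin n) B) := by
  change mkDerivation B _ (X s) = _
  rw [mkDerivation_X]

lemma pr_add_sub (b : Fin n → ZMod p) (q : Σ j, {i : S.ι j // i ≠ S.i0 j}) :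
    TowerData.pr b (S.w q.1 q.2) = TowerData.pr b (S.deg q.1) + TowerData.pr b (S.v q) := by
  unfold TowerData.pr
  rw [← Finset.sum_add_distrib]
  refine Finset.sum_congr rfl fun s _ => ?_
  rw [v]; ring

lemma pr_w' (b : Fin n → ZMod p) (j : Fin r) (i : S.ι j) :
    TowerData.pr b (S.w j i) = ∑ s, (S.a j i s : ZMod p) * b s + ∑ l, (S.e j i l : ZMod p) *
      TowerData.pr b (S.deg l) := by
  unfold TowerData.pr w
  have h1 : ∑ l, (S.e j i l : ZMod p) * ∑ s, b s * S.deg l s =
      ∑ s, b s * ∑ l, (S.e j i l : ZMod p) * S.deg l s := by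
    simp only [Finset.mul_sum]
    rw [Finset.sum_comm]
    refine Finset.sum_congr rfl fun s _ => Finset.sum_congr rfl fun l _ => ?_
    ring
  rw [h1, ← Finset.sum_add_distrib]
  refine Finset.sum_congr rfl fun s _ => ?_
  ring

variable (hS : S.Ok)

include hS

lemma pr_w (b : Fin n → ZMod p) (j : Fin r) (h : ∀ q, q.1 = j → TowerData.pr b (S.v q) = 0)
    (i : S.ι j) : TowerData.pr b (S.w j i) = TowerData.pr b (S.deg j) := by
  by_cases hi : i = S.i0 j
  · unfold TowerData.pr
    rw [hi]
    exact Finset.sum_congr rfl fun s _ => by rw [hS.hdeg]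
  · have h1 := pr_add_sub b ⟨j, i, hi⟩
    rw [h ⟨j, i, hi⟩ rfl, add_zero] at h1
    exact h1

/-- The weights of the polynomials and the monomials. -/
lemma weights (b : Fin n → ZMod p) :
    ∀ (N : ℕ) (j : Fin r), j.val = N → (∀ q, q.1 < j → TowerData.pr b (S.v q) = 0) →
      (∀ i, dl k B b (S.tm j i) = ZMod.castHom (dvd_refl p) k (TowerData.pr b (S.w j i)) •
        S.tm j i) ∧
      ((∀ q, q.1 = j → TowerData.pr b (S.v q) = 0) → dl k B b (S.f j) =
        ZMod.castHom (dvd_refl p) k (TowerData.pr b (S.deg j)) • S.f j) := by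
  intro N
  induction N using Nat.strong_induction_on with
  | _ N ih =>
    intro j hj hq
    have h1 : ∀ i, dl k B b (S.tm j i) = ZMod.castHom (dvd_refl p) k
        (TowerData.pr b (S.w j i)) • S.tm j i := by
      intro i
      have h2 : dl k B b (C (S.h (S.c j i))) = (0 : k) • C (S.h (S.c j i)) := by
        rw [dl_C, zero_smul]
      have h3 := eig_prod (dl k B b) Finset.univ (fun s => (X s : MvPolynomial (Fin n) B))
        (fun s => ZMod.castHom (dvd_refl p) k (b s)) (S.a j i) (fun s _ _ => dl_X b s)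
      have h4 := eig_prod (dl k B b) Finset.univ (fun l => S.f l)
        (fun l => ZMod.castHom (dvd_refl p) k (TowerData.pr b (S.deg l))) (S.e j i) (by
          intro l _ hl
          have hlj : l < j := by
            by_contra hcon
            exact hl (hS.e0 j i l (Or.inl (not_lt.1 hcon)))
          refine (ih l.val (by rw [← hj]; exact hlj) l rfl ?_).2 ?_
          · intro q hq'
            exact hq q (hq'.trans hlj)
          · intro q hq'
            exact hq q (by rw [hq']; exact hlj))
      have h5 := eig_mul (dl k B b) h2 (eig_mul (dl k B b) h3 h4)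
      refine h5.trans ?_
      congr 1
      rw [zero_add, pr_w', map_add, map_sum, map_sum]
      congr 1
      · exact Finset.sum_congr rfl fun s _ => by rw [map_mul, map_natCast]
      · exact Finset.sum_congr rfl fun s _ => by rw [map_mul, map_natCast]
    refine ⟨h1, ?_⟩
    intro hq'
    rw [hS.hf j, map_sum, Finset.smul_sum]
    refine Finset.sum_congr rfl fun i _ => ?_
    rw [h1 i, pr_w hS b j hq' i]

omit hS in
/-- The functions of a stage. -/
noncomputable def gL (S : CIData B p n r) {L : Type u} [Field L] [Algebra k L]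
    (ψ : MvPolynomial (Fin n) B →ₐ[k] L) (j : ℕ) : S.H ⊕ (Fin n ⊕ Fin r) → L :=
  open Classical in
  Sum.elim (fun t => ψ (C (S.h t))) (Sum.elim (fun s => ψ (X s))
    (fun l => if l.val < j ∧ l ∉ S.J then ψ (S.f l) else 1))

omit hS in
/-- The denominators of a stage. -/
noncomputable def Dn (S : CIData B p n r) (j : ℕ) : Submonoid (MvPolynomial (Fin n) B) :=
  Submonoid.closure ({x | ∃ b : B, b ≠ 0 ∧ x = C b} ∪ Set.range X ∪
    {x | ∃ l : Fin r, l.val < j ∧ l ∉ S.J ∧ x = S.f l})

omit hS in
/-- The logarithmic derivations of a stage. -/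
def DsL (S : CIData B p n r) {L : Type u} [Field L] [Algebra k L]
    (ψ : MvPolynomial (Fin n) B →ₐ[k] L) (j : ℕ) : Set (Derivation k L L) :=
  {D | ∃ b : Fin n → ZMod p, (∀ q, q.1.val < j → TowerData.pr b (S.v q) = 0) ∧
    ∀ a, D (ψ a) = ψ (dl k B b a)}

omit hS in
/-- The exponents of the terms. -/
noncomputable def ej (S : CIData B p n r) (j : Fin r) (i : S.ι j) :
    S.H ⊕ (Fin n ⊕ Fin r) → ℤ :=
  open Classical in
  Sum.elim (fun t => if t = S.c j i then 1 else 0)
    (Sum.elim (fun s => S.a j i s) fun l => S.e j i l)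

lemma psi_tm {L : Type u} [Field L] [Algebra k L] (ψ : MvPolynomial (Fin n) B →ₐ[k] L)
    (j : Fin r) (i : S.ι j) : ψ (S.tm j i) = ∏ x, gL S ψ j x ^ ej S j i x := by
  classical
  rw [tm, m, map_mul, map_mul, map_prod, map_prod, Fintype.prod_sum_type, Fintype.prod_sum_type]
  congr 1
  · rw [Finset.prod_eq_single (S.c j i)]
    · simp [gL, ej]
    · intro t _ ht
      simp [gL, ej, ht]
    · intro h; exact absurd (Finset.mem_univ _) h
  · congr 1
    · refine Finset.prod_congr rfl fun s _ => ?_
      simp [gL, ej]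
    · refine Finset.prod_congr rfl fun l _ => ?_
      by_cases hl : l.val < j.val ∧ l ∉ S.J
      · have e1 : gL S ψ j (Sum.inr (Sum.inr l)) = ψ (S.f l) := if_pos hl
        have e2 : ej S j i (Sum.inr (Sum.inr l)) = (S.e j i l : ℤ) := rfl
        rw [e1, e2, zpow_natCast, map_pow]
      · have h0 : S.e j i l = 0 := by
          apply hS.e0
          by_cases h1 : l.val < j.val
          · right
            by_contra h2
            exact hl ⟨h1, h2⟩
          · left
            rw [Fin.le_def]
            omega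
        simp [gL, ej, h0]

lemma psi_f {L : Type u} [Field L] [Algebra k L] (ψ : MvPolynomial (Fin n) B →ₐ[k] L)
    (j : Fin r) : ψ (S.f j) = ∑ i, (1 : k) • ∏ x, gL S ψ j x ^ ej S j i x := by
  rw [hS.hf j, map_sum]
  refine Finset.sum_congr rfl fun i _ => ?_
  rw [one_smul, psi_tm hS]

/-- The separation of the terms. -/
lemma sep_j {L : Type u} [Field L] [Algebra k L] (ψ : MvPolynomial (Fin n) B →ₐ[k] L)
    (hL : ∀ x : L, ∃ a b, ψ b ≠ 0 ∧ x * ψ b = ψ a) (j : Fin r)
    (hker : ∀ b : Fin n → ZMod p, (∀ q, q.1.val < j.val → TowerData.pr b (S.v q) = 0) →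
      ∀ a, ψ a = 0 → ψ (dl k B b a) = 0) :
    SepD (DsL S ψ j.val) (fun i => ∏ x, gL S ψ j x ^ ej S j i x) := by
  classical
  intro i
  -- the target values
  let t : (Σ j, {i : S.ι j // i ≠ S.i0 j}) → ZMod p := fun q =>
    if q.1 = j then (if i = S.i0 j then -1 else if HEq q.2.1 i then 1 else 0) else 0
  obtain ⟨b, hb⟩ := exists_dual hS.ind t
  have hb' : ∀ q, TowerData.pr b (S.v q) = t q := hb
  have hlt : ∀ q : (Σ j, {i : S.ι j // i ≠ S.i0 j}), q.1 < j → TowerData.pr b (S.v q) = 0 := by
    intro q hq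
    rw [hb']
    exact if_neg hq.ne
  obtain ⟨D, hD⟩ := exists_der_L ψ hL (dl k B b) (hker b hlt)
  have hw0 := (weights (k := k) hS b j.val j rfl hlt).1
  have hw : ∀ i', D (ψ (S.tm j i')) = ZMod.castHom (dvd_refl p) k
      (TowerData.pr b (S.w j i')) • ψ (S.tm j i') := by
    intro i'
    rw [hD, hw0, map_smul]
  refine ⟨D, ⟨b, hlt, hD⟩, ?_⟩
  have hval : ∀ i', i' ≠ S.i0 j → TowerData.pr b (S.w j i') = TowerData.pr b (S.deg j) +
      (if i = S.i0 j then -1 else if i' = i then 1 else 0) := by
    intro i' hi'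
    have h1 := pr_add_sub b ⟨j, i', hi'⟩
    rw [hb'] at h1
    refine h1.trans ?_
    congr 1
    simp only [t, if_true]
    by_cases h2 : i = S.i0 j
    · rw [if_pos h2, if_pos h2]
    · rw [if_neg h2, if_neg h2]
      by_cases h3 : i' = i
      · rw [if_pos (heq_of_eq h3), if_pos h3]
      · rw [if_neg (fun h => h3 (eq_of_heq h)), if_neg h3]
  have hval0 : TowerData.pr b (S.w j (S.i0 j)) = TowerData.pr b (S.deg j) := by
    unfold TowerData.pr
    exact Finset.sum_congr rfl fun s _ => by rw [hS.hdeg]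
  simp only [← psi_tm hS]
  by_cases hi : i = S.i0 j
  · refine ⟨ZMod.castHom (dvd_refl p) k (TowerData.pr b (S.deg j)) - 1, ?_, ?_⟩
    · rw [hw, hi, hval0, sub_add_cancel]
    · intro i' hi'
      rw [hw, hval i' (by rw [← hi]; exact hi'), if_pos hi, map_add, map_neg, map_one,
        sub_eq_add_neg]
  · refine ⟨ZMod.castHom (dvd_refl p) k (TowerData.pr b (S.deg j)), ?_, ?_⟩
    · rw [hw, hval i hi, if_neg hi, if_pos rfl, map_add, map_one]
    · intro i' hi'
      by_cases h0 : i' = S.i0 j
      · rw [hw, h0, hval0]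
      · rw [hw, hval i' h0, if_neg hi, if_neg hi', add_zero]

/-- The invariant of the induction. -/
def Inv (k : Type u) [Field k] [Algebra k B] [CharP k p] (S : CIData B p n r) (j : ℕ) : Prop :=
  ∀ (L : Type u) [Field L] [Algebra k L] (ψ : MvPolynomial (Fin n) B →ₐ[k] L),
    (∀ x : L, ∃ a b, ψ b ≠ 0 ∧ x * ψ b = ψ a) →
    RingHom.ker ψ.toRingHom ∈ (Ideal.span (S.f '' {l | l.val < j ∧ l ∈ S.J})).minimalPrimes →
    (∀ s ∈ Dn S j, ψ s ≠ 0) →
    Sta (gL S ψ j) (QS ψ (Dn S j)) (DsL S ψ j) ∧
      ∀ b : Fin n → ZMod p, (∀ q, q.1.val < j → TowerData.pr b (S.v q) = 0) →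
        ∀ a, ψ a = 0 → ψ (dl k B b a) = 0

end CIData

end Pool.Agent.W558
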